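import Pool.Agent.H13.HX.TargetsK

/-!
# Row NDS of the board hx_modules: specializations and non-divisibility
-/

set_option autoImplicit false

open MvPolynomial
open Pool.Agent.H12.ZD (pmap v O Res)
open Pool.Agent.H18.HIT Pool.Agent.H18.HX Pool.Agent.H13.HX

namespace Pool.Agent.H39.HX.NDS

theorem fse_map {R S : Type} [CommRing R] [CommRing S] (N : ℕ) (φ : R →+* S)
    (f : MvPolynomial (Fin (N + 1)) R) :
    finSuccEquiv S N (map φ f) = Polynomial.map (map φ) (finSuccEquiv R N f) := by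
  refine Polynomial.ext fun i => MvPolynomial.ext _ _ fun m => ?_
  rw [finSuccEquiv_coeff_coeff, coeff_map, Polynomial.coeff_map, coeff_map,
    finSuccEquiv_coeff_coeff]

theorem pf_NDS : T_NDS := by
  intro N k _ P b hP hb
  have hr : finSuccEquiv k N b %ₘ finSuccEquiv k N P ≠ 0 := by
    intro h
    rw [Polynomial.modByMonic_eq_zero_iff_dvd hP] at h
    exact hb ((map_dvd_iff (finSuccEquiv k N)).1 h)
  obtain ⟨i, hi⟩ : ∃ i, (finSuccEquiv k N b %ₘ finSuccEquiv k N P).coeff i ≠ 0 := by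
    by_contra hc
    push Not at hc
    exact hr (Polynomial.ext fun i => by rw [hc i, Polynomial.coeff_zero])
  obtain ⟨m, hm⟩ := MvPolynomial.ne_zero_iff.1 hi
  refine ⟨_, hm, ?_⟩
  intro K _ A φ hε hφ P₀ b₀ hP₀ hP1 hb1 hdvd
  have h1 : Polynomial.map (map A.subtype) (finSuccEquiv A N b₀ %ₘ finSuccEquiv A N P₀) =
      finSuccEquiv k N b %ₘ finSuccEquiv k N P := by
    rw [Polynomial.map_modByMonic _ hP₀, ← fse_map, ← fse_map, hP1, hb1]
  have h2 : coeff m ((finSuccEquiv A N b₀ %ₘ finSuccEquiv A N P₀).coeff i) = ⟨_, hε⟩ := by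
    apply Subtype.ext
    change A.subtype (coeff m ((finSuccEquiv A N b₀ %ₘ finSuccEquiv A N P₀).coeff i)) = _
    rw [← coeff_map, ← Polynomial.coeff_map, h1]
  have h3 : Polynomial.map (map φ) (finSuccEquiv A N b₀ %ₘ finSuccEquiv A N P₀) = 0 := by
    rw [Polynomial.map_modByMonic _ hP₀, ← fse_map, ← fse_map,
      Polynomial.modByMonic_eq_zero_iff_dvd]
    · exact map_dvd (finSuccEquiv K N) hdvd
    · rw [fse_map]
      exact Polynomial.Monic.map _ hP₀
  apply hφ
  rw [← h2, ← coeff_map, ← Polynomial.coeff_map, h3, Polynomial.coeff_zero, coeff_zero]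

end Pool.Agent.H39.HX.NDS
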