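import Pool.Agent.H18.HX.Targets

/-!
# Row PVI of the board hx_modules: preimages in projective space under an iterate
-/

set_option autoImplicit false

open MvPolynomial
open Pool.Agent.H12.ZD (pmap v O Res DenseOrbit NoInv)
open Pool.Agent.H18.HIT
open Pool.Agent.H18.HX

namespace Pool.Agent.H39.HX.PVI

variable {L : ℕ} {k : Type} [Field k]

theorem eval_smul_hom {q : Po L k} {t : ℕ} (hq : q.IsHomogeneous t) (a : k) (x : Fin L → k) :
    eval (fun i => a * x i) q = a ^ t * eval x q := by
  rw [eval_eq', eval_eq', Finset.mul_sum]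
  apply Finset.sum_congr rfl
  intro m hm
  have h1 : ∏ i, (a * x i) ^ m i = a ^ t * ∏ i, x i ^ m i := by
    rw [Finset.prod_congr rfl fun i _ => mul_pow a (x i) (m i), Finset.prod_mul_distrib,
      Finset.prod_pow_eq_pow_sum]
    congr 2
    have h2 := hq (mem_support_iff.mp hm)
    rw [Finsupp.weight_apply, Finsupp.sum_fintype _ _ (fun i => by simp)] at h2
    simpa using h2
  rw [h1]
  ring

theorem slf_it {I : Ideal (Po L k)} {f : Tup L k} (hf : Slf I f) (n : ℕ) : Slf I (it f n) := by
  induction n with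
  | zero =>
    constructor
    · intro c hc
      rw [it_zero, aeval_X_left_apply]
      exact hc
    · intro c hc
      rw [it_zero, aeval_X_left_apply] at hc
      exact hc
  | succ n ih =>
    constructor
    · intro c hc
      rw [aeval_it_succ]
      exact ih.inv _ (hf.inv _ hc)
    · intro c hc
      rw [aeval_it_succ] at hc
      exact hf.inj _ (ih.inj _ hc)

theorem pf_PVI (hELI : T_ELI) : T_PVI := by
  classical
  intro L d e n k _ I _ f hd hf hc
  have h1 : (1 : Po L k) ∉ I := (Ideal.ne_top_iff_one I).1 (Ideal.IsPrime.ne_top inferInstance)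
  induction n with
  | zero =>
    refine ⟨1, h1, fun y hy _ => ⟨{y}, by simp, ?_, ?_⟩⟩
    · intro x hx
      rw [Finset.mem_singleton] at hx
      rw [it_zero, pmap_X, hx]
      exact ⟨hy, rfl⟩
    · intro x hx x' hx' _ _
      rw [Finset.mem_singleton] at hx hx'
      rw [hx, hx']
  | succ n ih =>
    obtain ⟨c, hc0, hcov⟩ := hc
    obtain ⟨cn, hcn0, hcovn⟩ := ih
    obtain ⟨c', q, hc'0, hq⟩ := hELI L k I (it f n) (slf_it hf n) c hc0
    refine ⟨cn * c', fun h => ?_, fun y hyI hy => ?_⟩
    · rcases Ideal.IsPrime.mem_or_mem inferInstance h with h | h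
      · exact hcn0 h
      · exact hc'0 h
    rw [map_mul] at hy
    obtain ⟨S, hScard, hS, hSp⟩ := hcovn y hyI (left_ne_zero_of_mul hy)
    have hw : ∀ w ∈ S, eval w c ≠ 0 := by
      intro w hw1
      have h2 : eval w (aeval (it f n) c') = eval y c' := by
        rw [eval_aeval, (hS w hw1).2]
      have h3 := (hS w hw1).1 _ hq
      rw [map_sub, map_mul, sub_eq_zero, h2] at h3
      have h4 : eval w c * eval w q ≠ 0 := by
        rw [← h3]
        exact right_ne_zero_of_mul hy
      exact left_ne_zero_of_mul h4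
    have hT : ∀ w : Fin L → k, ∃ T : Finset (Fin L → k), w ∈ S →
        T.card = e ∧ (∀ x ∈ T, Zer I x ∧ pmap f x = w) ∧
        ∀ x ∈ T, ∀ x' ∈ T, ∀ t : k, (∀ i, x' i = t * x i) → x' = x := by
      intro w
      by_cases h : w ∈ S
      · obtain ⟨T, hT1, hT2, hT3⟩ := hcov w (hS w h).1 (hw w h)
        exact ⟨T, fun _ => ⟨hT1, hT2, hT3⟩⟩
      · exact ⟨∅, fun h' => absurd h' h⟩
    choose T hT using hT
    refine ⟨S.biUnion T, ?_, ?_, ?_⟩
    · rw [Finset.card_biUnion]
      · rw [Finset.sum_congr rfl (fun w hw1 => (hT w hw1).1), Finset.sum_const, hScard,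
          smul_eq_mul, pow_succ]
      · intro w hw1 w' hw1' hne
        show Disjoint (T w) (T w')
        rw [Finset.disjoint_left]
        intro x hx hx'
        exact hne (((hT w hw1).2.1 x hx).2.symm.trans ((hT w' hw1').2.1 x hx').2)
    · intro x hx
      rw [Finset.mem_biUnion] at hx
      obtain ⟨w, hw1, hx1⟩ := hx
      refine ⟨((hT w hw1).2.1 x hx1).1, ?_⟩
      rw [it_succ', pmap_comp, ((hT w hw1).2.1 x hx1).2, (hS w hw1).2]
    · intro x hx x' hx' t ht
      rw [Finset.mem_biUnion] at hx hx'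
      obtain ⟨w, hw1, hx1⟩ := hx
      obtain ⟨w', hw1', hx1'⟩ := hx'
      have h5 : x' = fun i => t * x i := funext ht
      have h6 : w' = w := by
        refine hSp w hw1 w' hw1' (t ^ d) fun i => ?_
        rw [← ((hT w hw1).2.1 x hx1).2, ← ((hT w' hw1').2.1 x' hx1').2, h5]
        exact eval_smul_hom (hd i) t x
      subst h6
      exact (hT w' hw1').2.2 x hx1 x' hx1' t ht

end Pool.Agent.H39.HX.PVI
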